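import Pool.Agent.H1.CA.TarP

/-!
# CA: the active set depends only on the fibers at active places of larger level
-/

set_option linter.unusedVariables false

open Ordinal Order Set
open scoped ZFSet

namespace CAA

open SF

/-- activity, unfolded -/
theorem ac_iff {t X H i : V} : Ac t X H i ↔ snd (app t i) = ∅ ∨
    (∃ j q, snd (app t i) = ZFSet.pair (nS 1) (ZFSet.pair j q) ∧ j ∈ i ∧
      fst (app t i) ∈ fst (app t j) ∧ Ac t X H j ∧ ZFSet.pair j q ∈ X) ∨
    ∃ p, snd (app t i) = ZFSet.pair (nS 2) p ∧ p ∈ H := by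
  constructor
  · intro h
    cases h with
    | z _ h1 => exact Or.inl h1
    | s _ j q h1 h2 h3 h4 h5 => exact Or.inr (Or.inl ⟨j, q, h1, h2, h3, h4, h5⟩)
    | h _ p h1 h2 => exact Or.inr (Or.inr ⟨p, h1, h2⟩)
  · rintro (h1 | ⟨j, q, h1, h2, h3, h4, h5⟩ | ⟨p, h1, h2⟩)
    · exact Ac.z i h1
    · exact Ac.s i j q h1 h2 h3 h4 h5
    · exact Ac.h i p h1 h2

/-- elements of elements of an ordinal -/
theorem isOrd_trans {a x y : V} (ha : IsOrd a) (hx : x ∈ a) (hy : y ∈ x) : y ∈ a := by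
  have h := ((isOrd_iff a).1 ha).1
  exact h x hx hy

/-- a subset of an ordinal which is an element of another ordinal is an element of it -/
theorem isOrd_mem_of_sub {b l m : V} (hb : IsOrd b) (hl : IsOrd l) (hm : IsOrd m)
    (h1 : b ⊆ l) (h2 : l ∈ m) : b ∈ m := by
  obtain ⟨β, rfl⟩ := hb
  obtain ⟨γ, rfl⟩ := hl
  obtain ⟨δ, rfl⟩ := hm
  have h3 : β ≤ γ := by
    by_contra h
    rw [not_le] at h
    exact ZFSet.mem_irrefl _ (h1 (Ordinal.toZFSet_mem_toZFSet_iff.2 h))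
  have h4 : γ < δ := Ordinal.toZFSet_mem_toZFSet_iff.1 h2
  exact Ordinal.toZFSet_mem_toZFSet_iff.2 (lt_of_le_of_lt h3 h4)

theorem pf_CA : T_CA := by
  intro κ t X X' H b hκ ht hb hX
  have key : ∀ i, i ∈ κ → b ⊆ fst (app t i) → (Ac t X H i ↔ Ac t X' H i) := by
    intro i
    induction i using ZFSet.inductionOn with
    | _ i ih =>
      intro hi hbi
      rw [ac_iff (X := X), ac_iff (X := X')]
      refine or_congr_right (or_congr_left ?_)
      refine exists_congr fun j => exists_congr fun q => ?_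
      refine and_congr_right fun h1 => and_congr_right fun h2 => and_congr_right fun h3 => ?_
      have hj : j ∈ κ := isOrd_trans hκ hi h2
      have hbj : b ∈ fst (app t j) := isOrd_mem_of_sub hb (ht i hi) (ht j hj) hbi h3
      have hbj2 : b ⊆ fst (app t j) := fun x hx => isOrd_trans (ht j hj) hbj hx
      constructor
      · rintro ⟨h4, h5⟩
        exact ⟨(ih j h2 hj hbj2).1 h4, (hX j hj h4 hbj q).1 h5⟩
      · rintro ⟨h4, h5⟩
        have h6 := (ih j h2 hj hbj2).2 h4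
        exact ⟨h6, (hX j hj h6 hbj q).2 h5⟩
  have hA : As κ t X H b = As κ t X' H b := by
    ext i
    unfold As
    rw [ZFSet.mem_sep, ZFSet.mem_sep]
    refine and_congr_right fun hi => ?_
    constructor
    · rintro ⟨h1, h2⟩
      exact ⟨(key i hi h2).1 h1, h2⟩
    · rintro ⟨h1, h2⟩
      exact ⟨(key i hi h2).2 h1, h2⟩
  refine ⟨hA, fun hX2 => ?_⟩
  ext z
  unfold aS
  rw [ZFSet.mem_sep, ZFSet.mem_sep, ← hA]
  constructor
  · rintro ⟨h1, ⟨x, y, rfl⟩, h2⟩
    rw [fst_pair] at h2 ⊢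
    exact ⟨(hX2 x h2 y).1 h1, ⟨x, y, rfl⟩, h2⟩
  · rintro ⟨h1, ⟨x, y, rfl⟩, h2⟩
    rw [fst_pair] at h2 ⊢
    exact ⟨(hX2 x h2 y).2 h1, ⟨x, y, rfl⟩, h2⟩

end CAA
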