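import Pool.Agent.H1.CA.TarP

/-!
# CF: the models `B_β`
-/

set_option linter.unusedVariables false

open Ordinal Order Set
open scoped ZFSet

namespace CAA

open SF

namespace H44CF

theorem emp_tr : (∅ : V).IsTransitive := fun x hx => absurd hx (ZFSet.notMem_empty x)

/-- levels over a set of a model of `ZFm` -/
theorem m_LA (hLHT : T_LHT) {M : V → Prop} (k : ZFm M) {A : V} (hA : M A) {ρ : Ordinal.{0}}
    (hρ : M ρ.toZFSet) : M (LA A ρ) := by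
  have h := hLHT.1 M k (cons (∅ : V) (cons A fun _ => ρ.toZFSet))
    (In.cons (In.cons (fun _ => hρ) hA) k.mempty)
  have e : Lh (cons (∅ : V) (cons A fun _ => ρ.toZFSet) 0)
      (cons (∅ : V) (cons A fun _ => ρ.toZFSet) 1)
      (cons (∅ : V) (cons A fun _ => ρ.toZFSet) 2).rank = LA A ρ := by
    show Lh ∅ A (ρ.toZFSet).rank = Lh ∅ A ρ
    rw [Ordinal.rank_toZFSet]
  rw [← e]
  exact h

theorem mem_LA_limit {A : V} {γ : Ordinal.{0}} (hγ : IsSuccLimit γ) {x : V} :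
    x ∈ LA A γ ↔ ∃ β < γ, x ∈ LA A β := mem_Lh_limit hγ

/-- minimality of the levels -/
theorem LA_min (hLHT : T_LHT) {W : V → Prop} (k : ZFm W) {A : V} (hA : W A) {θ : Ordinal.{0}}
    (hθ : IsSuccLimit θ) (h : ∀ ρ < θ, W ρ.toZFSet) : ∀ x ∈ LA A θ, W x := by
  intro x hx
  obtain ⟨ρ, hρ, hx⟩ := (mem_LA_limit hθ).1 hx
  exact k.trans _ (m_LA hLHT k hA (h ρ hρ)) x hx

/-- separation with two parameters: the pairs of level `≥ β` -/
theorem m_sepβ {M : V → Prop} (k : ZFm M) {a b t : V} (ha : M a) (hb : M b) (ht : M t) :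
    M (a.sep fun z => b ⊆ fst (app t (fst z))) := by
  have h1 : Dfb ZFm (fun _ v => v 2 ⊆ fst (app (v 3) (fst (v 0)))) :=
    Dfb.subset (Tm.var 2) (Tm.fst (Tm.app (Tm.var 3) (Tm.fst (Tm.var 0))))
  exact (Tm.sep h1 (Tm.var 0)).1 M k (cons a (cons b fun _ => t))
    (In.cons (In.cons (fun _ => ht) hb) ha)

/-- separation for the filter class -/
theorem m_sepH {M : V → Prop} (k : ZFm M) {c A t : V} (hc : M c) (hA : M A) (ht : M t) :
    M (c.sep fun p => ∃ i ∈ A, snd (app t i) = ZFSet.pair (nS 2) p) := by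
  have h0 : Dfb ZFm (fun _ v => snd (app (v 4) (v 0)) = ZFSet.pair (nS 2) (v 1)) :=
    Dfb.eq (Tm.snd (Tm.app (Tm.var 4) (Tm.var 0))) (Tm.pair (Tm.nS 2) (Tm.var 1))
  have h1 : Dfb ZFm (fun _ v => ∃ i ∈ v 2, snd (app (v 3) i) = ZFSet.pair (nS 2) (v 0)) :=
    (Dfb.bex ktr_zfm (Tm.var 2) h0).congr fun M k v hv => Iff.rfl
  exact (Tm.sep h1 (Tm.var 0)).1 M k (cons c (cons A fun _ => t))
    (In.cons (In.cons (fun _ => ht) hA) hc)

end H44CF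

open H44CF in
theorem pf_CF (hCE : T_CE) (hDU : T_DU) (hDQ : T_DQ) (hPF : T_PF) (hPG : T_PG) (hPK : T_PK)
    (hLHT : SF.T_LHT) (hFI : SF.T_FI) (hFJ : SF.T_FJ) (hFL : SF.T_FL) : T_CF := by
  intro D hD G hG
  obtain ⟨hPo, hcM, hrM, -⟩ := hPF D hD
  have kM : ZFm D.M := hD.grd.zfc.toZFm
  obtain ⟨kE, hME, hGE⟩ := hFI D.M D.c D.r G kM hcM hrM hPo hG
  have kEc : ZFCm (Ext D.M G) := hFJ D.M D.c D.r G hD.grd.zfc hcM hrM hPo hG
  have hord : ∀ α : Ordinal.{0}, Ext D.M G α.toZFSet ↔ α < D.θ := by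
    intro α
    constructor
    · intro h
      exact (hD.grd.ord α).1 (hFL.2.2 D.M G α kM h)
    · intro h
      exact hME _ ((hD.grd.ord α).2 h)
  obtain ⟨hE1, hE2, hE3, hE4, -, -⟩ := hCE D hD G hG
  have hin : Inac (Ext D.M G) D.κ := hPK D hD G hG
  have hlim : IsSuccLimit D.θ := hD.grd.lim
  have hκθ : D.κ < D.θ := hD.grd.κχ.trans hD.grd.χθ
  have hsubθ : ∀ x, x ∈ LA ∅ D.χ → D.M x := fun x hx => Lh_mono hD.grd.χθ.le hx
  have htM : D.M D.tf := hsubθ _ hD.tM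
  have main : ∀ β < D.κ, ZFCm (· ∈ D.B G β) ∧ D.a G β ∈ D.B G β ∧
      (∀ x ∈ D.B G β, Ext D.M G x) ∧ (∀ α : Ordinal.{0}, α.toZFSet ∈ D.B G β ↔ α < D.θ) ∧
      (∀ x, D.M x → x ∈ D.B G β) := by
    intro β hβ
    obtain ⟨hAE, haE⟩ := hE1 β hβ
    obtain ⟨hl, h1, h2, h3, h4⟩ := hDU (Ext D.M G) (D.a G β) D.θ kE haE hord
    have hM : ∀ x, D.M x → x ∈ D.B G β := by
      intro x hx
      exact LA_min hLHT h2 (ZFm.mempty h2) hlim (fun ρ hρ => (h3 ρ).2 hρ) x hx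
    obtain ⟨h5, h6⟩ := h4 (by
      intro z hz
      unfold Dat.a aS at hz
      rw [ZFSet.mem_sep] at hz
      obtain ⟨-, -, hPG3, -⟩ := hPG D hD G hG
      obtain ⟨k, hk, q, hq, rfl⟩ := (hPG3 z).1 hz.1
      refine hM _ (kM.mpair ((hD.grd.ord k).2 (hk.trans hκθ)) ?_)
      exact (((hPG D hD G hG).2.1 k hk).2.1 q hq).1)
    exact ⟨h6, h5, h1, h3, hM⟩
  have hmin : ∀ β < D.κ, ∀ W : V → Prop, ZFm W → (∀ x, D.M x → W x) → W (D.a G β) →
      ∀ x ∈ D.B G β, W x := by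
    intro β hβ W kW hW haW x hx
    exact LA_min hLHT kW haW hlim (fun ρ hρ => hW _ ((hD.grd.ord ρ).2 hρ)) x hx
  constructor
  · intro β hβ
    obtain ⟨h1, h2, h3, h4, h5⟩ := main β hβ
    have hA : D.A G β ∈ D.B G β := by
      rw [← hE2 β]
      exact (Tm.dm (Tm.var 0)).1 (· ∈ D.B G β) h1.toZFm (fun _ => D.a G β) fun _ => h2
    refine ⟨h1, h2, ?_, h5, h3, h4, hmin β hβ, ?_, hA, ?_⟩
    · have hc : ({y | Ext D.M G y} : Set V).Countable := by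
        have h6 : ({y | Ext D.M G y} : Set V) ⊆ (fun x => val G x) '' ((LA ∅ D.θ : V) : Set V) := by
          rintro y ⟨x, hx, rfl⟩
          exact ⟨x, hx, rfl⟩
        exact (hD.grd.ctb.image _).mono h6
      exact hc.mono fun x hx => h3 x hx
    · rw [hE3 β hβ]
      exact m_sepH h1.toZFm (h5 _ hcM) hA (h5 _ htM)
    · refine hDQ (Ext D.M G) (D.a G β) D.κ D.θ kEc (hE1 β hβ).2 hord h2 hin
  · intro α β hαβ hβ
    obtain ⟨h1, h2, h3, h4, h5⟩ := main α (lt_of_le_of_lt hαβ hβ)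
    intro x hx
    refine hmin β hβ (· ∈ D.B G α) h1.toZFm h5 ?_ x hx
    show D.a G β ∈ D.B G α
    rw [hE4 α β hαβ]
    exact m_sepβ h1.toZFm h2 (h5 _ ((hD.grd.ord β).2 (hβ.trans hκθ))) (h5 _ htM)

end CAA
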