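import Pool.Agent.H1.CA.TarP

/-!
# MD: cofinalities
-/

set_option linter.unusedVariables false

open Ordinal Order Set
open scoped ZFSet

namespace CAA

open SF

namespace H44MD

/-- `c` is a cofinal function from `ν` to `β` -/
def Cof (M : V → Prop) (ν β : Ordinal.{0}) : Prop :=
  ∃ c, M c ∧ ZFSet.IsFunc ν.toZFSet β.toZFSet c ∧ ∀ ξ < β, ∃ j < ν, ξ.toZFSet ∈ app c j.toZFSet

theorem cof_self {M : V → Prop} (k : ZFm M) {β : Ordinal.{0}} (hβ : M β.toZFSet)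
    (hl : IsSuccLimit β) : Cof M β β := by
  refine ⟨resS β.toZFSet fun x => x, ?_, ?_, ?_⟩
  · exact ((Tm.resS (Tm.var 0) (Tm.var 0)).congr fun M k v hv => rfl).1 M k (fun _ => β.toZFSet)
      fun _ => hβ
  · exact isFunc_resS _ _ _ fun x hx => hx
  · intro ξ hξ
    have h1 : succ ξ < β := hl.succ_lt hξ
    refine ⟨succ ξ, h1, ?_⟩
    rw [app_resS (Ordinal.toZFSet_mem_toZFSet_iff.2 h1)]
    exact Ordinal.toZFSet_mem_toZFSet_iff.2 (Order.lt_succ ξ)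

/-- minimality of the cofinality gives regularity -/
theorem reg_of_min {M : V → Prop} {β : Ordinal.{0}} (hl : IsSuccLimit β)
    (hmin : ∀ l < β, ¬ Cof M l β) : ∀ l < β, ∀ f, M f → ZFSet.IsFunc l.toZFSet β.toZFSet f →
      ∃ γ < β, ∀ ξ < l, app f ξ.toZFSet ∈ γ.toZFSet := by
  intro l hlβ f hf hfun
  by_contra hcon
  refine hmin l hlβ ⟨f, hf, hfun, ?_⟩
  intro ξ hξ
  have h1 : succ ξ < β := hl.succ_lt hξ
  by_contra h2
  refine hcon ⟨succ ξ, h1, ?_⟩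
  intro j hj
  obtain ⟨η, hη, e⟩ := Ordinal.mem_toZFSet_iff.1
    (app_mem hfun (Ordinal.toZFSet_mem_toZFSet_iff.2 hj))
  rw [← e]
  refine Ordinal.toZFSet_mem_toZFSet_iff.2 (Order.lt_succ_iff.2 ?_)
  by_contra h3
  rw [not_le] at h3
  refine h2 ⟨j, hj, ?_⟩
  rw [← e]
  exact Ordinal.toZFSet_mem_toZFSet_iff.2 h3

end H44MD

open H44MD in
theorem pf_MD (hDF : T_DF) (hDI : T_DI) (hGH : T_GH) : T_MD := by
  intro D hD β hβ hl
  have kM : ZFm D.M := hD.grd.zfc.toZFm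
  have hκθ : D.κ < D.θ := hD.grd.κχ.trans hD.grd.χθ
  have hord : ∀ α < D.κ, D.M α.toZFSet := fun α h => (hD.grd.ord α).2 (h.trans hκθ)
  have hG := (hGH D hD).1
  -- the least cofinality
  have hne : ({ν | Cof D.M ν β} : Set Ordinal.{0}).Nonempty := ⟨β, cof_self kM (hord β hβ) hl⟩
  obtain ⟨ν, hν, hmin⟩ : ∃ ν, Cof D.M ν β ∧ ∀ l < ν, ¬ Cof D.M l β := by
    refine ⟨sInf {ν | Cof D.M ν β}, csInf_mem hne, ?_⟩
    intro l hl hc
    exact absurd (csInf_le' (show l ∈ ({ν | Cof D.M ν β} : Set Ordinal.{0}) from hc))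
      (not_le.2 hl)
  have hνβ : ν ≤ β := by
    by_contra h
    rw [not_le] at h
    exact hmin β h (cof_self kM (hord β hβ) hl)
  obtain ⟨c, hc1, hc2, hc3⟩ := hν
  refine ⟨ν, lt_of_le_of_lt hνβ hβ, c, hc1, hc2, hc3, ?_⟩
  rcases hνβ.lt_or_eq with h | h
  · refine ⟨ν, h, ?_⟩
    intro i hi hiκ
    obtain ⟨hg, hgM, -⟩ := hG i hiκ
    refine (hDF D.M kM _ hgM hg).1 _ ?_
    exact ord_mem_Lh (fun x hx => absurd hx (ZFSet.notMem_empty x))
      (lt_of_le_of_lt hi (hD.sz.iγ i hiκ))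
  · subst h
    have hω : ω ≤ ν := Ordinal.omega0_le_of_isSuccLimit hl
    rcases hω.lt_or_eq with h | h
    · obtain ⟨l, hlν, hl2⟩ := hD.grd.least ν hβ h
        (fun l hl' f hf hfun => reg_of_min hl hmin l hl' f hf hfun)
      refine ⟨l, hlν, ?_⟩
      intro i hi hiκ
      obtain ⟨hg, hgM, -⟩ := hG i hiκ
      obtain ⟨ρ, f, g, hf, hg2, hof, hog⟩ := hDI D.M hD.grd.zfc _ hgM ⟨om, hg.om⟩
      have hνρ : ν ≤ ρ := by
        by_contra hlt
        rw [not_le] at hlt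
        obtain ⟨x, hx, hxl, hxn⟩ := hl2 ρ hlt f hf
        have hxC : x ∈ LA ∅ (D.γ i) := by
          refine hD.sz.pow1 i hiκ x hx ?_
          intro y hy
          obtain ⟨ξ, hξ, rfl⟩ := Ordinal.mem_toZFSet_iff.1 (hxl hy)
          exact Ordinal.toZFSet_mem_toZFSet_iff.2 (lt_of_lt_of_le hξ hi)
        obtain ⟨a, ha, hab⟩ := hof.2 x hxC
        obtain ⟨ξ, hξ, rfl⟩ := Ordinal.mem_toZFSet_iff.1 ha
        exact hxn ξ hξ (app_eq (svl_of_isFunc hof.1) hab)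
      refine (hDF D.M kM _ hgM hg).2.2.1 _ ρ.toZFSet (hord ν hβ) (Or.inr ⟨g, hg2, hog⟩) ?_
      intro y hy
      obtain ⟨ξ, hξ, rfl⟩ := Ordinal.mem_toZFSet_iff.1 hy
      exact Ordinal.toZFSet_mem_toZFSet_iff.2 (lt_of_lt_of_le hξ hνρ)
    · subst h
      refine ⟨0, Ordinal.omega0_pos, ?_⟩
      intro i hi hiκ
      obtain ⟨hg, hgM, -⟩ := hG i hiκ
      exact (hDF D.M kM _ hgM hg).1 _ hg.om

end CAA
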